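import Mathlib
import Pool.Agent.StL.Fin

set_option autoImplicit false

/-!
# The counting function of small Stieltjes constants
-/

namespace Pool.Agent.Results.MP_5ebcce_nt.LogSquare

open Filter Topology

/-- The Stieltjes constants `γ n` exist as limits, and for all `δ > 0` there is `C` such that for
all `N ≥ 2` at most `C (log N) ^ 2` of the `n ≤ N` satisfy `|γ n| < exp (n (log log n - δ))`. -/
theorem result : ∃ γ : ℕ → ℝ,
    (∀ n : ℕ, Tendsto (fun N : ℕ => (∑ k ∈ Finset.Icc 1 N, Real.log k ^ n / k) -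
      Real.log N ^ (n + 1) / (n + 1)) atTop (𝓝 (γ n))) ∧
    ∀ δ : ℝ, 0 < δ → ∃ C : ℝ, ∀ N : ℕ, 2 ≤ N →
      ({n : ℕ | n ≤ N ∧ |γ n| < Real.exp (n * (Real.log (Real.log n) - δ))}.ncard : ℝ) ≤
        C * Real.log N ^ 2 :=
  Pool.Agent.StL.log_square

end Pool.Agent.Results.MP_5ebcce_nt.LogSquare
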