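import Mathlib
import Pool.Agent.Stj.Short

set_option autoImplicit false

/-!
# Small values of the Stieltjes constants in short intervals
-/

namespace Pool.Agent.Results.MP_5ebcce_nt.ShortIntervals

open Filter Topology

/-- The Stieltjes constants `γ n` exist as limits, and for all `δ > 0`, every integer `d ≥ 1` and
every `ε > 8 / (3 (d + 3))`, for all large real `x` the interval `[x, x + x ^ (1 - ε)]` contains
fewer than `(d + 1) (d + 2) / 2` integers `n` with `|γ n| < exp (n (log log n - δ))`. -/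
theorem result : ∃ γ : ℕ → ℝ,
    (∀ n : ℕ, Tendsto (fun N : ℕ => (∑ k ∈ Finset.Icc 1 N, Real.log k ^ n / k) -
      Real.log N ^ (n + 1) / (n + 1)) atTop (𝓝 (γ n))) ∧
    ∀ δ : ℝ, 0 < δ → ∀ d : ℕ, 1 ≤ d → ∀ ε : ℝ, 8 / (3 * ((d : ℝ) + 3)) < ε →
      ∃ x0 : ℝ, ∀ x : ℝ, x0 ≤ x →
        2 * {n : ℕ | x ≤ n ∧ (n : ℝ) ≤ x + x ^ (1 - ε) ∧
          |γ n| < Real.exp (n * (Real.log (Real.log n) - δ))}.ncard < (d + 1) * (d + 2) :=
  Pool.Agent.Stj.short

end Pool.Agent.Results.MP_5ebcce_nt.ShortIntervals
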