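import Mathlib
import Pool.Agent.Stj.Gap

set_option autoImplicit false

/-!
# Small values of the Stieltjes constants are spaced by at least `c log n` for every `c < 2`
-/

namespace Pool.Agent.Results.MP_5ebcce_nt.SpacedSmallValues

open Filter Topology

/-- The Stieltjes constants `γ n` exist as limits, and for all `δ > 0`, `c < 2` and all large `n`
at most one integer `k` in `[n, n + c log n]` has `|γ k| < exp (k (log log k - δ))`. -/
theorem result : ∃ γ : ℕ → ℝ,
    (∀ n : ℕ, Tendsto (fun N : ℕ => (∑ k ∈ Finset.Icc 1 N, Real.log k ^ n / k) -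
      Real.log N ^ (n + 1) / (n + 1)) atTop (𝓝 (γ n))) ∧
    ∀ δ : ℝ, 0 < δ → ∀ c : ℝ, c < 2 → ∃ n0 : ℕ, ∀ n i j : ℕ, n0 ≤ n → n ≤ i → i < j →
      (j : ℝ) ≤ n + c * Real.log n →
      Real.exp (i * (Real.log (Real.log i) - δ)) ≤ |γ i| ∨
      Real.exp (j * (Real.log (Real.log j) - δ)) ≤ |γ j| :=
  Pool.Agent.Stj.gap

end Pool.Agent.Results.MP_5ebcce_nt.SpacedSmallValues
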